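import Pool.Agent.TH849.SC.Fin

/-!
# Five-cycle double covers containing a prescribed circuit: carving width at most five

A carving of a graph is a binary tree whose leaves are the vertices; its width is the largest number
of edges that leave the set of leaves of a subtree. The proof is by helper849
(`Pool.Agent.TH849.SC`): the boundary states of the subtrees, with the pairing of the outgoing edges
by the paths of the prescribed circuit, contain one of 49 explicit sets, and this family is closed
under gluing; the finite facts are checked by the kernel.
-/

set_option autoImplicit false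

namespace Pool.Agent.Results.MP_7cf8d2_co.CarvingWidthFive

open Pool.Agent.TH849.SC

/-- The degree of `v` in the subgraph with edge set `S`. -/
def deg {V E : Type} [DecidableEq V] (ends : E → Sym2 V) (S : Finset E) (v : V) : ℕ :=
  (S.filter fun e : E => v ∈ ends e).card

/-- `S` is the edge set of an even subgraph. -/
def IsEven {V E : Type} [DecidableEq V] (ends : E → Sym2 V) (S : Finset E) : Prop :=
  ∀ v : V, Even (deg ends S v)

/-- `C` is (the edge set of) a cycle, i.e. a circuit: a nonempty even subgraph that contains no
smaller nonempty even subgraph. -/
def IsCycle {V E : Type} [DecidableEq V] (ends : E → Sym2 V) (C : Finset E) : Prop :=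
  C.Nonempty ∧ IsEven ends C ∧ ∀ S : Finset E, S ⊆ C → S.Nonempty → IsEven ends S → S = C

/-- **Theorem.** Let `G` be a finite loopless multigraph, with vertices `V` and edges `E`, whose
degrees are at most three and in which each edge lies on a cycle. Assume that some binary tree `T`
whose leaves are labelled bijectively by the vertices of `G` has width at most five: for each
subtree at most five edges of `G` leave the set of its leaves. Then for each cycle `C` of `G` there
is a 5-cycle double cover `D` of `G` with `C ⊆ D 0`. -/
theorem result (V E : Type) [Fintype V] [DecidableEq V] [Fintype E] [DecidableEq E]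
    (ends : E → Sym2 V) (hloop : ∀ e : E, ¬ (ends e).IsDiag)
    (hdeg : ∀ v : V, deg ends Finset.univ v ≤ 3)
    (hbr : ∀ e : E, ∃ S : Finset E, IsCycle ends S ∧ e ∈ S)
    (T : Tr V) (hT : T.set = Set.univ) (hN : T.Nodup) (hW : T.CarvWidth ends 5)
    (C : Finset E) (hC : IsCycle ends C) :
    ∃ D : Fin 5 → Finset E, (∀ i, IsEven ends (D i)) ∧ C ⊆ D 0 ∧
      ∀ e : E, (Finset.univ.filter fun i : Fin 5 => e ∈ D i).card = 2 := by
  refine main ends hloop hdeg (fun e => ?_) T hT hN hW C hC
  obtain ⟨S, h1, h2⟩ := hbr e
  exact ⟨S, h2, h1.2.1⟩

end Pool.Agent.Results.MP_7cf8d2_co.CarvingWidthFive
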