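import Pool.Agent.TH700.S5.Main
import Pool.Agent.Results.MP_e720fa_co.ColourableComplement

set_option autoImplicit false

open Finset

namespace Pool.Agent.Results.MP_7cf8d2_co.ColourableOffCircuit

open Pool.Agent.Helper347.Sab

/-!
5-cycle double covers through a prescribed cycle.

Let G be cubic and C a circuit of G. If G - V(C) is 3-edge-colourable (for instance bipartite, a
forest or empty; it need not be connected), or if G/E(C) has a nowhere-zero 4-flow, or if C belongs
to a 2-regular subgraph S such that for every bridge F of S the graph (S ∪ F)/E(S) has a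
nowhere-zero 4-flow, then some 5-CDC of G contains C.

Proof. View the flows on the bridges F of S as F_4-valued and rescale each by a nonzero element of
F_4. Let f be the sum and T the set of edges of S on which f vanishes. If D is an even set of G that
meets S exactly in T, and A, B are the two coordinates of f, then S, D, S + D + A, S + D + B and
S + D + A + B (symmetric differences) cover every edge exactly twice. Such a set D exists if one
quadratic condition for every bridge holds; together the conditions say that (M x)_i is 0 or x_i
for all i, where M is a Hermitian matrix over F_4 and x is the vector of scaling factors. The number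
of solutions x without zero entries is odd, since modulo 2 it is the sum of det (M + T) over all
0/1 diagonal matrices T, which is 1.
-/

variable {V E : Type} [Fintype V] [DecidableEq V] [Fintype E] [DecidableEq E]

/-- A 5-cycle double cover of G: five even subgraphs such that every edge lies in exactly two. -/
def IsFiveCDC (G : MGraph V E) (D : Fin 5 → Finset E) : Prop :=
  (∀ i v, Even (dg G (D i) v)) ∧ ∀ e, (univ.filter fun i => e ∈ D i).card = 2

/-- G - V(C) is 3-edge-colourable: the edges with both ends off C have a proper 3-colouring. -/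
def OffColourable (G : MGraph V E) (C : Finset E) : Prop :=
  ∃ col : E → Fin 3, ∀ (v : V) (e f : E), (∀ w ∈ G.ends e, dg G C w = 0) →
    (∀ w ∈ G.ends f, dg G C w = 0) → v ∈ G.ends e → v ∈ G.ends f → e ≠ f → col e ≠ col f

/-- G/E(C) has a nowhere-zero 4-flow: two even edge sets of G cover all edges outside C. -/
def FourFlowOff (G : MGraph V E) (C : Finset E) : Prop :=
  ∃ A B : Finset E, (∀ v, Even (dg G A v)) ∧ (∀ v, Even (dg G B v)) ∧
    ∀ e, e ∉ C → e ∈ A ∨ e ∈ B

/-- S is (the edge set of) a 2-regular subgraph: every vertex has S-degree 0 or 2. -/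
def TwoRegular (G : MGraph V E) (S : Finset E) : Prop :=
  ∀ v, dg G S v = 0 ∨ dg G S v = 2

/-- The edge f is joined to e by a chain of edges, all outside S except possibly e, in which
consecutive edges share a vertex not on S. For e outside S the edges f with this property form the
bridge of S (component of G - E(S)) containing e. -/
def SameBridge (G : MGraph V E) (S : Finset E) (e f : E) : Prop :=
  Relation.ReflTransGen (fun a b => b ∉ S ∧ ∃ v, v ∈ G.ends a ∧ v ∈ G.ends b ∧ dg G S v = 0) e f

/-- With F the bridge of S containing e, the graph (S ∪ F)/E(S) has a nowhere-zero 4-flow: two even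
edge sets contained in S ∪ F cover F. -/
def BridgeFourFlow (G : MGraph V E) (S : Finset E) (e : E) : Prop :=
  ∃ A B : Finset E, (∀ v, Even (dg G A v)) ∧ (∀ v, Even (dg G B v)) ∧
    (∀ f ∈ A, f ∈ S ∨ SameBridge G S e f) ∧ (∀ f ∈ B, f ∈ S ∨ SameBridge G S e f) ∧
    ∀ f, f ∉ S → SameBridge G S e f → f ∈ A ∨ f ∈ B

/-- Let G be a cubic multigraph and C a circuit of G such that G - V(C) is 3-edge-colourable, or
G/E(C) has a nowhere-zero 4-flow, or there is a 2-regular subgraph S containing C such that for
every bridge F of S the graph (S ∪ F)/E(S) has a nowhere-zero 4-flow. Then some 5-cycle double cover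
of G contains C; in the first two cases C, in the third case S is one of its five members. -/
theorem result {V E : Type} [Fintype V] [DecidableEq V] [Fintype E] [DecidableEq E]
    (G : MGraph V E) (hG : IsCubic G) (C S : Finset E) (hC : IsCircuit G C)
    (h : (S = C ∧ (OffColourable G C ∨ FourFlowOff G C)) ∨
      (C ⊆ S ∧ TwoRegular G S ∧ ∀ e, e ∉ S → BridgeFourFlow G S e)) :
    ∃ D : Fin 5 → Finset E, IsFiveCDC G D ∧ D 0 = S ∧ C ⊆ D 0 := by
  classical
  obtain ⟨hCS, hS, hflow⟩ : C ⊆ S ∧ TwoRegular G S ∧ ∀ e, e ∉ S → BridgeFourFlow G S e := by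
    rcases h with ⟨h1, h2⟩ | h
    · obtain ⟨A, B, hA, hB, hAB⟩ : FourFlowOff G C := by
        rcases h2 with h2 | h2
        · exact Pool.Agent.Results.MP_e720fa_co.ColourableComplement.colour_flow G hG C hC h2
        · exact h2
      subst h1
      refine ⟨Subset.refl _, hC.2.1, fun e _ => ?_⟩
      obtain ⟨A', a1, a2, a3⟩ := Pool.Agent.H164R2.bridge_flow G S hC A hA e
      obtain ⟨B', b1, b2, b3⟩ := Pool.Agent.H164R2.bridge_flow G S hC B hB e
      refine ⟨A', B', a1, b1, a2, b2, fun f hf hsb => ?_⟩
      rcases hAB f hf with h | h
      · exact Or.inl (a3 f hf hsb h)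
      · exact Or.inr (b3 f hf hsb h)
    · exact h
  obtain ⟨Q, h1, h2, h3⟩ := Pool.Agent.TH700.S5.strong_edges G univ S (subset_univ _)
    (fun v => (hG v).le) hS (fun f hf => absurd (mem_univ _) hf) (fun e _ he => hflow e he)
  refine ⟨Q, ⟨fun i v => h1 i v, fun e => ?_⟩, h3, ?_⟩
  · rw [h2 e, if_pos (mem_univ e)]
  · rw [h3]
    exact hCS

end Pool.Agent.Results.MP_7cf8d2_co.ColourableOffCircuit
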